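import Pool.Agent.H624R3.CP.Stmts

set_option autoImplicit false

/-! Project COVPROD, task COUNT. -/

open MeasureTheory Metric Real Filter Topology

namespace Pool.Agent.H884R3.CP

open Pool.Agent.H624R3.CP

theorem lp_sub {d : ℕ} (M : Matrix (Fin d) (Fin d) ℝ) (z z' : Fin d → ℤ) :
    lp M (z - z') = lp M z - lp M z' := by
  unfold Pool.Agent.H624R3.CP.lp
  rw [← WithLp.toLp_sub, ← Matrix.mulVec_sub]
  congr 2
  funext i
  simp

theorem Rd_pos {d : ℕ} (hd : 1 ≤ d) : 0 < Rd d := by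
  unfold Rd
  have : (0 : ℝ) < d := by exact_mod_cast hd
  positivity

theorem kap_sq (d : ℕ) : (21 / 20) * ((11 / 10) * Rd d) ^ 2 ≤ kap d ^ 2 * exp 1 := by
  have h : kap d ^ 2 = (21 / 20) / exp 1 * ((11 / 10) * Rd d) ^ 2 := by
    unfold kap
    rw [mul_pow (√((21 / 20) / exp 1)) _ 2, Real.sq_sqrt (by positivity)]
  rw [h]
  have he : exp (1 : ℝ) ≠ 0 := (exp_pos 1).ne'
  apply le_of_eq
  field_simp

/-- bound for the number of points in affine subspaces of dimension at most `m` -/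
def Bd {d : ℕ} (TT : Finset (E d)) (m b : ℕ) : Prop :=
  ∀ F : AffineSubspace ℝ (E d), Module.finrank ℝ F.direction ≤ m → ∀ T' : Finset (E d), T' ⊆ TT →
    (∀ x ∈ T', x ∈ F) → T'.card ≤ b

theorem gram_bound {d : ℕ} {M : Matrix (Fin d) (Fin d) ℝ} (hM : Good d M) {T : Finset (Fin d → ℤ)}
    {p : E d} (hT : ∀ z ∈ T, ‖lp M z - p‖ ≤ (11 / 10) * Rd d) {k : ℕ} (hk : 40 ≤ k)
    (hkd : 10 * k ≤ d) (w : Fin (k + 1) → E d) (hw : ∀ l, ∃ z ∈ T, lp M z = w l)
    (hi : AffineIndependent ℝ w) :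
    kap d ^ (2 * k) ≤ gram (fun l : Fin k => w l.succ - w 0) := by
  choose z hz hzw using hw
  have hv : (fun l : Fin k => w l.succ - w 0) = fun l : Fin k => lp M (z l.succ - z 0) := by
    funext l
    rw [lp_sub, hzw, hzw]
  have hli : LinearIndependent ℝ (fun l : Fin k => w l.succ - w 0) := by
    have h1 := (affineIndependent_iff_linearIndependent_vsub ℝ w 0).mp hi
    have h2 := h1.comp (fun l : Fin k => (⟨l.succ, Fin.succ_ne_zero l⟩ : {x : Fin (k + 1) // x ≠ 0}))
      (by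
        intro a b hab
        have := congrArg Subtype.val hab
        exact Fin.succ_injective _ this)
    exact h2
  have hnot := hM.vol k hk hkd (fun l => z l.succ - z 0) (by rw [← hv]; exact hli)
  rw [← hv] at hnot
  by_contra hcon
  push Not at hcon
  apply hnot
  refine ⟨⟨p - w 0, ?_, fun l => ?_⟩, hcon.le⟩
  · rw [norm_sub_rev, ← hzw 0]
    exact hT _ (hz 0)
  · have : w l.succ - w 0 - (p - w 0) = w l.succ - p := by abel
    rw [this, ← hzw l.succ]
    exact hT _ (hz _)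

theorem iter {d : ℕ} {M : Matrix (Fin d) (Fin d) ℝ} (hM : Good d M) {T : Finset (Fin d → ℤ)}
    {TT : Finset (E d)} (hTT : ∀ x ∈ TT, ∃ z ∈ T, lp M z = x) {p : E d} (hd : 1 ≤ d)
    (hT : ∀ z ∈ T, ‖lp M z - p‖ ≤ (11 / 10) * Rd d) {m0 L N : ℕ}
    (hstep : ∀ m ≥ m0, ∀ (d k b : ℕ) (T : Finset (E d))
      (F : AffineSubspace ℝ (E d)) (p : E d) (ρ κ : ℝ), k = m - (m / 200 + 1) →
      0 < ρ → 0 < κ → (21 / 20) * ρ ^ 2 ≤ κ ^ 2 * exp 1 →
      Module.finrank ℝ F.direction = m → (∀ x ∈ T, x ∈ F) → (∀ x ∈ T, ‖x - p‖ ≤ ρ) →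
      (∀ F' : AffineSubspace ℝ (E d), Module.finrank ℝ F'.direction ≤ k →
        ∀ T' : Finset (E d), T' ⊆ T → (∀ x ∈ T', x ∈ F') → T'.card ≤ b) →
      (∀ w : Fin (k + 1) → E d, (∀ l, w l ∈ T) → AffineIndependent ℝ w →
        κ ^ (2 * k) ≤ gram (fun l : Fin k => w l.succ - w 0)) →
      T.card ≤ 4 * m * b)
    (hL : m0 ≤ L) (hL2 : 42 ≤ L) (hbase : Bd TT L N) (i : ℕ) :
    ∀ m : ℕ, (m : ℝ) ≤ (200 / 199) ^ i * L → 10 * m ≤ d → Bd TT m ((4 * d) ^ i * N) := by
  induction i with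
  | zero =>
    intro m hm _ F hF T' hT' hx
    have hmL : m ≤ L := by
      have : (m : ℝ) ≤ L := by simpa using hm
      exact_mod_cast this
    rw [pow_zero, one_mul]
    exact hbase F (hF.trans hmL) T' hT' hx
  | succ i ih =>
    intro m hm hmd F hF T' hT' hx
    set m' := Module.finrank ℝ F.direction with hm'
    have h1 : 1 ≤ (4 * d) ^ (i + 1) := Nat.one_le_pow _ _ (by omega)
    rcases le_or_gt m' L with h | h
    · exact (hbase F h T' hT' hx).trans (Nat.le_mul_of_pos_left _ h1)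
    · set k := m' - (m' / 200 + 1) with hk
      have hk1 : 200 * k ≤ 199 * m' := by omega
      have hk40 : 40 ≤ k := by omega
      have hkd : 10 * k ≤ d := by omega
      have hkr : (k : ℝ) ≤ (200 / 199) ^ i * L := by
        have h2 : (200 : ℝ) * k ≤ 199 * m' := by exact_mod_cast hk1
        have h3 : (m' : ℝ) ≤ m := by exact_mod_cast hF
        have h4 : (200 / 199 : ℝ) ^ (i + 1) * L = (200 / 199) * ((200 / 199) ^ i * L) := by
          rw [pow_succ]; ring
        rw [h4] at hm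
        linarith
      have hb := ih k hkr hkd
      have hRd := Rd_pos hd
      have hkap : 0 < kap d := by
        unfold kap
        positivity
      have hs := hstep m' (hL.trans h.le) d k ((4 * d) ^ i * N) T' F p ((11 / 10) * Rd d) (kap d) hk
        (by positivity) hkap (kap_sq d) rfl hx
        (fun x hx' => by
          obtain ⟨z, hz, rfl⟩ := hTT x (hT' hx')
          exact hT z hz)
        (fun F' hF' T'' hT'' hx'' => hb F' hF' T'' (hT''.trans hT') hx'')
        (fun w hw hi => gram_bound hM hT hk40 hkd w (fun l => hTT _ (hT' (hw l))) hi)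
      refine hs.trans ?_
      have h5 : 4 * m' ≤ 4 * d := by omega
      calc 4 * m' * ((4 * d) ^ i * N) ≤ 4 * d * ((4 * d) ^ i * N) := Nat.mul_le_mul_right _ h5
        _ = (4 * d) ^ (i + 1) * N := by ring

theorem base {d : ℕ} {M : Matrix (Fin d) (Fin d) ℝ} (hM : Good d M) {T : Finset (Fin d → ℤ)}
    {TT : Finset (E d)} (hTT : ∀ x ∈ TT, ∃ z ∈ T, lp M z = x) {p : E d} (hd : 1 ≤ d)
    (hT : ∀ z ∈ T, ‖lp M z - p‖ ≤ (11 / 10) * Rd d) (hpack : TaskPACK) (L : ℕ) :
    Bd TT L ⌊(27 / 5 : ℝ) ^ L⌋₊ := by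
  intro F hF T' hT' hx
  have hRd := Rd_pos hd
  apply Nat.le_floor
  have h := hpack d L T' F p ((11 / 10) * Rd d) (Rd d / 2) (by positivity) (by positivity) hF hx
    (fun x hx' => by
      obtain ⟨z, hz, rfl⟩ := hTT x (hT' hx')
      exact hT z hz)
    (fun x hx' y hy' hxy => by
      obtain ⟨z, hz, rfl⟩ := hTT x (hT' hx')
      obtain ⟨z', hz', rfl⟩ := hTT y (hT' hy')
      rw [← lp_sub]
      refine (hM.lam _ ?_).le
      intro h0
      apply hxy
      rw [sub_eq_zero.mp h0])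
  refine h.trans (le_of_eq ?_)
  congr 1
  field_simp
  norm_num

theorem taskCOUNT : TaskSTEP → TaskPACK → TaskCOUNT := by
  rintro ⟨m0, hstep⟩ hpack ε hε
  -- the number of steps
  obtain ⟨C, hC⟩ := pow_unbounded_of_one_lt (1 / (10 * (ε / 4))) (show (1 : ℝ) < 200 / 199 by norm_num)
  -- the final estimate
  have hlim : Tendsto (fun x : ℝ => (8 / ε) ^ C * exp 2 * (x ^ C * exp (-x))) atTop (𝓝 0) := by
    have := (Real.tendsto_pow_mul_exp_neg_atTop_nhds_zero C).const_mul ((8 / ε) ^ C * exp 2)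
    rwa [mul_zero] at this
  have hlim2 : Tendsto (fun d : ℕ => (ε / 2) * (d : ℝ)) atTop atTop :=
    tendsto_natCast_atTop_atTop.const_mul_atTop (by positivity)
  have hev := (hlim.comp hlim2).eventually (gt_mem_nhds (show (0 : ℝ) < 1 by norm_num))
  have hev2 : ∀ᶠ d : ℕ in atTop, ((max m0 42 : ℕ) : ℝ) ≤ (ε / 4) * d :=
    (tendsto_natCast_atTop_atTop.const_mul_atTop (show (0 : ℝ) < ε / 4 by positivity)).eventually_ge_atTop _
  obtain ⟨d1, hd1⟩ := eventually_atTop.mp (hev.and hev2)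
  refine ⟨max d1 1, fun d hd M hM S hS p T hT => ?_⟩
  have hd1' : 1 ≤ d := le_of_max_le_right hd
  obtain ⟨h1, h2⟩ := hd1 d (le_of_max_le_left hd)
  have hd0 : (0 : ℝ) < d := by exact_mod_cast hd1'
  classical
  set TT : Finset (E d) := T.image (lp M) with hTTdef
  have hTT : ∀ x ∈ TT, ∃ z ∈ T, lp M z = x := fun x hx => by
    simpa [hTTdef] using hx
  have hRd := Rd_pos hd1'
  have hinj : Function.Injective (lp M) := by
    intro z z' hzz
    by_contra hne
    have h3 := hM.lam (z - z') (sub_ne_zero.mpr hne)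
    rw [lp_sub, hzz, sub_self, norm_zero] at h3
    linarith
  have hcard : TT.card = T.card := Finset.card_image_of_injective _ hinj
  set L : ℕ := ⌊(ε / 4) * d⌋₊ + 1 with hL
  have hLle : ((ε / 4) * d : ℝ) ≤ L := by
    rw [hL]
    push_cast
    exact (Nat.lt_floor_add_one _).le
  have hLle2 : (L : ℝ) ≤ (ε / 4) * d + 1 := by
    rw [hL]
    push_cast
    have := Nat.floor_le (show 0 ≤ (ε / 4) * (d : ℝ) by positivity)
    linarith
  have hmaxL : max m0 42 ≤ L := by
    have : ((max m0 42 : ℕ) : ℝ) ≤ L := h2.trans hLle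
    exact_mod_cast this
  have hb := iter hM hTT hd1' (fun z hz => (hT z hz).2) hstep (le_of_max_le_left hmaxL)
    (le_of_max_le_right hmaxL) (base hM hTT hd1' (fun z hz => (hT z hz).2) hpack L) C
    (Module.finrank ℝ S) (by
      have h4 : (10 : ℝ) * Module.finrank ℝ S ≤ d := by exact_mod_cast hS
      have h5 : 1 / (10 * (ε / 4)) * ((ε / 4) * d) ≤ (200 / 199) ^ C * L := by
        apply mul_le_mul hC.le hLle (by positivity) (by positivity)
      have h6 : 1 / (10 * (ε / 4)) * ((ε / 4) * d) = d / 10 := by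
        field_simp
      rw [h6] at h5
      linarith) hS
  have hfin := hb S.toAffineSubspace (by rw [Submodule.toAffineSubspace_direction]) TT
    (Finset.Subset.refl _) (fun x hx => by
      obtain ⟨z, hz, rfl⟩ := hTT x hx
      exact (Submodule.mem_toAffineSubspace).mpr (hT z hz).1)
  rw [hcard] at hfin
  have hfin' : (T.card : ℝ) ≤ (4 * d) ^ C * (27 / 5) ^ L := by
    have h7 : (T.card : ℝ) ≤ (((4 * d) ^ C * ⌊(27 / 5 : ℝ) ^ L⌋₊ : ℕ) : ℝ) := by exact_mod_cast hfin
    refine h7.trans ?_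
    push_cast
    exact mul_le_mul_of_nonneg_left (Nat.floor_le (by positivity)) (by positivity)
  refine hfin'.trans ?_
  -- numerical estimate
  have he2 : (27 / 5 : ℝ) ≤ exp 2 := by
    have h8 := Real.exp_one_gt_d9
    have h9 : exp (2 : ℝ) = exp 1 * exp 1 := by rw [← Real.exp_add]; norm_num
    rw [h9]
    nlinarith
  have h10 : (27 / 5 : ℝ) ^ L ≤ exp ((ε / 2) * d + 2) := by
    calc (27 / 5 : ℝ) ^ L ≤ (exp 2) ^ L := pow_le_pow_left₀ (by norm_num) he2 _
      _ = exp (L * 2) := by rw [← Real.exp_nat_mul]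
      _ ≤ exp ((ε / 2) * d + 2) := by
        apply Real.exp_le_exp.mpr
        linarith
  simp only [Function.comp_apply] at h1
  have h11 : (4 * (d : ℝ)) ^ C * exp 2 ≤ exp ((ε / 2) * d) := by
    have h12 : (8 / ε) ^ C * exp 2 * ((ε / 2 * (d : ℝ)) ^ C * exp (-(ε / 2 * d))) =
        (4 * (d : ℝ)) ^ C * exp 2 * exp (-(ε / 2 * d)) := by
      have : (8 / ε) ^ C * (ε / 2 * (d : ℝ)) ^ C = (4 * (d : ℝ)) ^ C := by
        rw [← mul_pow]
        congr 1
        field_simp
        ring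
      rw [← this]
      ring
    rw [h12, Real.exp_neg, ← div_eq_mul_inv, div_lt_one (Real.exp_pos _)] at h1
    exact h1.le
  calc (4 * (d : ℝ)) ^ C * (27 / 5) ^ L ≤ (4 * (d : ℝ)) ^ C * exp ((ε / 2) * d + 2) :=
        mul_le_mul_of_nonneg_left h10 (by positivity)
    _ = ((4 * (d : ℝ)) ^ C * exp 2) * exp ((ε / 2) * d) := by rw [Real.exp_add]; ring
    _ ≤ exp ((ε / 2) * d) * exp ((ε / 2) * d) := mul_le_mul_of_nonneg_right h11 (Real.exp_pos _).le
    _ = exp (ε * d) := by rw [← Real.exp_add]; congr 1; ring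

end Pool.Agent.H884R3.CP
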